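import Pool.Agent.Y826.ZG.Defs4
import Pool.Agent.H355R2.MTBridge
import Pool.Agent.W25.IT.Basic
import Pool.Agent.W59.GB.Cls

/-!
# Consequences of `DHL[45,2]` for linear forms: 45 admissible forms with integer coefficients

Everything is stated relative to `H : Dhl45L`.
(The first theorem is adapted from helper25's `Pool.Agent.W25.IT.M49`, helper25's `W25.IT.Chain`.)
-/

set_option autoImplicit false

namespace Pool.Agent.Y863.DH

open Finset Filter Pool.Agent.H732R3.BigQ Pool.Agent.H95R2.BG.LF Pool.Agent.H355R2.MT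
open Pool.Agent.W25.IT (GoodPair pair_of_forms)
open Pool.Agent.Y826.ZG (Dhl45L)

/-- the two indices of a hit -/
def Hit2 {ι : Type*} (S : Finset ι) (D b : ι → ℤ) (n : ℕ) : Prop :=
  ∃ i ∈ S, ∃ j ∈ S, i ≠ j ∧ (∃ p : ℕ, p.Prime ∧ D i * n + b i = p) ∧ (∃ q : ℕ, q.Prime ∧ D j * n + b j = q)

theorem forms45 (H : Dhl45L) (A : Fin 45 → ℕ) (B : Fin 45 → ℤ) (hA : ∀ i, 0 < A i)
    (hinj : Function.Injective (fun i => (A i, B i)))
    (hadm : ∀ p : ℕ, p.Prime → ∃ n : ℤ, ∀ i, ¬ (p : ℤ) ∣ A i * n + B i) :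
    Big {n : ℕ | ∃ i j, i ≠ j ∧ (∃ p : ℕ, p.Prime ∧ (A i * n + B i : ℤ) = p) ∧
      (∃ q : ℕ, q.Prime ∧ (A j * n + B j : ℤ) = q)} := by
  classical
  have hprim : ∀ i, ∀ p : ℕ, p.Prime → ¬ ((p : ℤ) ∣ A i ∧ (p : ℤ) ∣ B i) := by
    intro i p hp ⟨h1, h2⟩
    obtain ⟨n, hn⟩ := hadm p hp
    exact hn i (dvd_add (Dvd.dvd.mul_right h1 _) h2)
  have hcop : ∀ i, IsCoprime (A i : ℤ) (B i) := fun i => isCoprime_of_forall_prime (hprim i)
  set N : ℕ := ∑ i, (B i).natAbs + 1 with hN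
  have hbpos : ∀ i, 1 ≤ (A i : ℤ) * N + B i := by
    intro i
    have h1 : (B i).natAbs ≤ ∑ i, (B i).natAbs :=
      Finset.single_le_sum (f := fun i => (B i).natAbs) (fun _ _ => Nat.zero_le _) (mem_univ i)
    have h2 : (1 : ℤ) ≤ A i := by exact_mod_cast hA i
    have h3 : ((B i).natAbs : ℤ) + 1 ≤ N := by
      have : (B i).natAbs + 1 ≤ N := by omega
      exact_mod_cast this
    have h4 : -((B i).natAbs : ℤ) ≤ B i := by
      have := neg_abs_le (B i)
      rwa [Int.abs_eq_natAbs] at this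
    nlinarith
  set b : Fin 45 → ℕ := fun i => ((A i : ℤ) * N + B i).toNat with hb
  have hbz : ∀ i, (b i : ℤ) = (A i : ℤ) * N + B i := by
    intro i
    rw [hb]
    exact Int.toNat_of_nonneg (by have := hbpos i; omega)
  have hnp : ∀ i j, i ≠ j → A i * b j ≠ A j * b i := by
    intro i j hij heq
    have h1 : (A i : ℤ) * b j = (A j : ℤ) * b i := by exact_mod_cast heq
    rw [hbz, hbz] at h1
    have h2 : (A i : ℤ) * B j = A j * B i := by linarith
    have h3 : (A i : ℤ) ∣ A j := (hcop i).dvd_of_dvd_mul_right (Dvd.intro _ h2)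
    have h4 : (A j : ℤ) ∣ A i := (hcop j).dvd_of_dvd_mul_right (Dvd.intro _ h2.symm)
    have h5 : A i = A j :=
      Nat.dvd_antisymm (Int.natCast_dvd_natCast.1 h3) (Int.natCast_dvd_natCast.1 h4)
    have h6 : B i = B j := by
      rw [h5] at h2
      have h7 : (A j : ℤ) ≠ 0 := by exact_mod_cast (hA j).ne'
      exact (mul_left_cancel₀ h7 h2).symm
    exact hij (hinj (by simp [h5, h6]))
  have hadm' : ∀ p : ℕ, p.Prime → ∃ a : ℕ, ∀ i, ¬ p ∣ A i * a + b i := by
    intro p hp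
    obtain ⟨n, hn⟩ := hadm p hp
    have hp0 : (p : ℤ) ≠ 0 := by exact_mod_cast hp.ne_zero
    refine ⟨((n - N) % p).toNat, fun i hdvd => hn i ?_⟩
    have h1 : (p : ℤ) ∣ (A i : ℤ) * (((n - N) % p).toNat : ℤ) + b i := by exact_mod_cast hdvd
    rw [Int.toNat_of_nonneg (Int.emod_nonneg _ hp0), hbz] at h1
    have h3 : (p : ℤ) ∣ (n - N) - (n - N) % p := Int.dvd_self_sub_emod
    have h4 := dvd_add h1 (Dvd.dvd.mul_left h3 (A i : ℤ))
    have h5 : (A i : ℤ) * ((n - N) % p) + ((A i : ℤ) * N + B i) +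
        (A i : ℤ) * ((n - N) - (n - N) % p) = (A i : ℤ) * n + B i := by ring
    rwa [h5] at h4
  have hcount := H A b ⟨fun i => hA i, hnp, hadm'⟩
  have hG : Big {n : ℕ | ∃ i j, i ≠ j ∧ (A i * n + b i).Prime ∧ (A j * n + b j).Prime} := by
    intro η hη
    refine Eventually.frequently ?_
    filter_upwards [hcount η hη, eventually_ge_atTop (0 : ℝ)] with x hx hx0
    refine hx.trans ?_
    rw [← Set.ncard_coe_finset]
    have hsub : ((goodL A b x : Finset ℕ) : Set ℕ) ⊆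
        {n : ℕ | n ∈ {n : ℕ | ∃ i j, i ≠ j ∧ (A i * n + b i).Prime ∧ (A j * n + b j).Prime} ∧
          (n : ℝ) ≤ x} := by
      intro n hn
      rw [Finset.mem_coe, goodL, Finset.mem_filter, Finset.mem_Icc] at hn
      exact ⟨hn.2, (Nat.cast_le.2 hn.1.2).trans (Nat.floor_le hx0)⟩
    exact_mod_cast Set.ncard_le_ncard hsub (fin_le _ x)
  refine hG.affine 1 N le_rfl (fun n => n + N) (fun n _ => by push_cast; ring) ?_
  rintro n ⟨i, j, hne, h2, h3⟩
  refine ⟨i, j, hne, ⟨_, h2, ?_⟩, ⟨_, h3, ?_⟩⟩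
  · push_cast
    rw [hbz]; ring
  · push_cast
    rw [hbz]; ring

/-- two of 45 admissible forms, indexed by a finite set of indices -/
theorem forms45_finset (H : Dhl45L) {ι : Type*} (S : Finset ι) (hS : S.card = 45) (D b : ι → ℤ)
    (hD : ∀ i ∈ S, 1 ≤ D i) (hcop : ∀ i ∈ S, Int.gcd (b i) (D i) = 1)
    (hinj : ∀ i ∈ S, ∀ j ∈ S, D i = D j → b i = b j → i = j)
    (hadm : ∀ p : ℕ, p.Prime → p ≤ 43 → ∃ n : ℤ, ∀ i ∈ S, ¬ (p : ℤ) ∣ D i * n + b i) :
    Big {n : ℕ | Hit2 S D b n} := by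
  classical
  set φ : Fin 45 ≃ S := (S.equivFinOfCardEq hS).symm with hφ
  have hDn : ∀ i : Fin 45, (((D (φ i)).toNat : ℕ) : ℤ) = D (φ i) := fun i =>
    Int.toNat_of_nonneg (by have := hD (φ i) (φ i).2; omega)
  have h := forms45 H (fun i => (D (φ i)).toNat) (fun i => b (φ i))
    (fun i => by have := hD (φ i) (φ i).2; omega)
    (by
      intro i j h
      simp only [Prod.mk.injEq] at h
      have h1 : D (φ i) = D (φ j) := by rw [← hDn, ← hDn j, h.1]
      have h2 : ((φ i : S) : ι) = φ j := hinj _ (φ i).2 _ (φ j).2 h1 h.2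
      exact φ.injective (Subtype.ext h2))
    (by
      intro p hp
      by_cases hp43 : p ≤ 43
      · obtain ⟨n, hn⟩ := hadm p hp hp43
        refine ⟨n, fun i => ?_⟩
        rw [hDn]
        exact hn _ (φ i).2
      · have h45 : 45 < p := by
          have h1 : p ≠ 44 := by rintro rfl; exact absurd hp (by norm_num)
          have h2 : p ≠ 45 := by rintro rfl; exact absurd hp (by norm_num)
          omega
        obtain ⟨n, hn⟩ := exists_avoid' hp h45 (fun i => D (φ i)) (fun i => b (φ i)) (by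
          rintro i ⟨h1, h2⟩
          exact (Nat.prime_iff_prime_int.1 hp).not_isUnit
            ((Int.isCoprime_iff_gcd_eq_one.2 (hcop _ (φ i).2)).isUnit_of_dvd' h2 h1))
        refine ⟨n, fun i => ?_⟩
        rw [hDn]
        exact hn i)
  refine h.mono ?_
  rintro n ⟨i, j, hij, h1, h2⟩
  rw [hDn] at h1 h2
  exact ⟨φ i, (φ i).2, φ j, (φ j).2, fun h3 => hij (φ.injective (Subtype.ext h3)), h1, h2⟩

/-- a fixed pair -/
theorem hit_pair {ι : Type*} (S : Finset ι) (D b : ι → ℤ) (h : Big {n : ℕ | Hit2 S D b n}) :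
    ∃ i ∈ S, ∃ j ∈ S, i ≠ j ∧ Big {n : ℕ | (∃ p : ℕ, p.Prime ∧ D i * n + b i = p) ∧
      (∃ q : ℕ, q.Prime ∧ D j * n + b j = q)} := by
  obtain ⟨⟨i, j⟩, hij⟩ := Pool.Agent.W59.GB.big_cover
    (fun x : S × S => {n : ℕ | x.1 ≠ x.2 ∧ (∃ p : ℕ, p.Prime ∧ D x.1 * n + b x.1 = p) ∧
      (∃ q : ℕ, q.Prime ∧ D x.2 * n + b x.2 = q)}) _ h (by
      rintro n ⟨i, hi, j, hj, hne, h1, h2⟩
      exact Set.mem_iUnion.2 ⟨(⟨i, hi⟩, ⟨j, hj⟩), fun h => hne (congrArg Subtype.val h), h1, h2⟩)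
  have hne : i ≠ j := by
    obtain ⟨n, hn⟩ := hij.infinite.nonempty
    exact hn.1
  exact ⟨i, i.2, j, j.2, fun h => hne (Subtype.ext h), hij.mono fun n hn => hn.2⟩

/-- drop the forms with the least frequent zero modulo `p` -/
theorem drop_one {ι : Type*} [DecidableEq ι] (D b : ι → ℤ) (hcop : ∀ i, Int.gcd (b i) (D i) = 1)
    {p : ℕ} (hp : p.Prime) (S : Finset ι) :
    ∃ S' ⊆ S, S'.card = S.card - S.card / p ∧ ∃ n : ℤ, ∀ i ∈ S', ¬ (p : ℤ) ∣ D i * n + b i := by
  classical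
  have hpp := Nat.prime_iff_prime_int.1 hp
  have hsum : ∑ n ∈ range p, (S.filter (fun i => (p : ℤ) ∣ D i * n + b i)).card ≤ S.card := by
    have h1 : ∑ n ∈ range p, (S.filter (fun i => (p : ℤ) ∣ D i * n + b i)).card =
        ∑ i ∈ S, ((range p).filter (fun n : ℕ => (p : ℤ) ∣ D i * n + b i)).card := by
      simp only [card_filter]
      exact sum_comm
    rw [h1]
    refine (sum_le_sum (g := fun _ => 1) fun i _ => ?_).trans (by simp)
    rw [card_le_one]
    intro x hx y hy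
    rw [mem_filter, mem_range] at hx hy
    have h2 := dvd_sub hx.2 hy.2
    have h3 : (D i * (x : ℤ) + b i) - (D i * (y : ℤ) + b i) = D i * ((x : ℤ) - y) := by ring
    rw [h3] at h2
    rcases hpp.dvd_or_dvd h2 with h4 | h4
    · exfalso
      have h5 := (dvd_add_right (Dvd.dvd.mul_right h4 (x : ℤ))).1 hx.2
      exact hpp.not_isUnit ((Int.isCoprime_iff_gcd_eq_one.2 (hcop i)).isUnit_of_dvd' h5 h4)
    · have h5 : (y : ℤ) ≡ x [ZMOD p] := Int.modEq_iff_dvd.2 h4
      exact (Nat.ModEq.eq_of_lt_of_lt ((Int.natCast_modEq_iff).1 h5) hy.1 hx.1).symm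
  obtain ⟨n, hn, hcard⟩ : ∃ n ∈ range p,
      (S.filter (fun i => (p : ℤ) ∣ D i * n + b i)).card ≤ S.card / p := by
    by_contra hcon
    push Not at hcon
    have h1 : ∑ _n ∈ range p, (S.card / p + 1) ≤
        ∑ n ∈ range p, (S.filter (fun i => (p : ℤ) ∣ D i * n + b i)).card :=
      sum_le_sum fun n hn => hcon n hn
    rw [sum_const, card_range, smul_eq_mul] at h1
    have h2 := h1.trans hsum
    have h3 : S.card < p * (S.card / p + 1) := by
      have := Nat.lt_mul_div_succ S.card hp.pos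
      exact this
    omega
  have h2 : S.card - S.card / p ≤ (S.filter (fun i => ¬ (p : ℤ) ∣ D i * n + b i)).card := by
    have := card_filter_add_card_filter_not (s := S) (fun i => (p : ℤ) ∣ D i * n + b i)
    omega
  obtain ⟨S', h3, h4⟩ := exists_subset_card_eq h2
  exact ⟨S', h3.trans (filter_subset _ _), h4, n, fun i hi => (mem_filter.1 (h3 hi)).2⟩

/-- the same for a list of primes -/
theorem drop_list {ι : Type*} [DecidableEq ι] (D b : ι → ℤ) (hcop : ∀ i, Int.gcd (b i) (D i) = 1) :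
    ∀ (L : List ℕ), (∀ p ∈ L, p.Prime) → ∀ (S : Finset ι),
    ∃ S' ⊆ S, S'.card = L.foldl (fun n p => n - n / p) S.card ∧
      ∀ p ∈ L, ∃ n : ℤ, ∀ i ∈ S', ¬ (p : ℤ) ∣ D i * n + b i := by
  intro L
  induction L with
  | nil => intro _ S; exact ⟨S, subset_rfl, rfl, by simp⟩
  | cons p L ih =>
    intro hL S
    obtain ⟨S1, h1, h2, n, hn⟩ := drop_one D b hcop (hL p (by simp)) S
    obtain ⟨S2, h3, h4, h5⟩ := ih (fun q hq => hL q (by simp [hq])) S1
    refine ⟨S2, h3.trans h1, ?_, ?_⟩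
    · rw [h4, h2]; rfl
    · intro q hq
      rcases List.mem_cons.1 hq with h6 | h6
      · subst h6
        exact ⟨n, fun i hi => hn i (h3 hi)⟩
      · exact h5 q h6

/-- a chain of 145 maps -/
theorem chain145 (H : Dhl45L) (b D : Fin 145 → ℤ) (hD : ∀ i, 1 ≤ D i) (hcop : ∀ i, Int.gcd (b i) (D i) = 1)
    (h2 : ∀ i, 2 ∣ b i * D i) (hdvd : ∀ i j, i ≤ j → D i ∣ D j)
    (hinj : Function.Injective (fun i => (b i, D i))) :
    ∃ i j, i < j ∧ GoodPair (b j - D j / D i * b i) (D j / D i) := by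
  classical
  obtain ⟨S, -, hS, hadm⟩ := drop_list D b hcop [3, 5, 7, 11, 13, 17, 19, 23, 29, 31, 37, 41, 43]
    (by
      intro p hp
      fin_cases hp <;> norm_num) univ
  have hS45 : S.card = 45 := by
    rw [hS, card_univ, Fintype.card_fin]
    rfl
  obtain ⟨i, -, j, -, hij, h⟩ := hit_pair S D b (forms45_finset H S hS45 D b (fun i _ => hD i) (fun i _ => hcop i)
    (by
      intro x _ y _ h1 h2
      exact hinj (by simp only [Prod.mk.injEq]; exact ⟨h2, h1⟩))
    (by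
      intro p hp hp43
      by_cases hp2 : p = 2
      · subst hp2
        refine ⟨1, fun i _ hi => ?_⟩
        have h3 : (2 : ℤ) ∣ D i + b i := by simpa using hi
        have hne : ¬ ((2 : ℤ) ∣ b i ∧ (2 : ℤ) ∣ D i) := fun h4 =>
          Int.prime_two.not_isUnit ((Int.isCoprime_iff_gcd_eq_one.2 (hcop i)).isUnit_of_dvd' h4.1 h4.2)
        rcases Int.prime_two.dvd_or_dvd (h2 i) with h4 | h4
        · exact hne ⟨h4, (dvd_add_left h4).1 h3⟩
        · exact hne ⟨(dvd_add_right h4).1 h3, h4⟩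
      · apply hadm
        interval_cases p <;> first
          | exact absurd rfl hp2
          | exact absurd hp (by decide)
          | simp))
  have key : ∀ i j : Fin 145, i < j → Big {n : ℕ | (∃ p : ℕ, p.Prime ∧ D i * n + b i = p) ∧
      (∃ q : ℕ, q.Prime ∧ D j * n + b j = q)} → GoodPair (b j - D j / D i * b i) (D j / D i) := by
    intro i j hij hB
    have h3 : D j / D i * D i = D j := Int.ediv_mul_cancel (hdvd i j hij.le)
    have h4 : 0 < D j / D i := by
      have h5 := hD j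
      have h6 := hD i
      by_contra hcon
      have h7 : D j / D i * D i ≤ 0 := mul_nonpos_of_nonpos_of_nonneg (by omega) (by omega)
      omega
    exact pair_of_forms (by have := hD i; omega) h4 h3.symm hB
  rcases lt_or_gt_of_ne hij with h3 | h3
  · exact ⟨i, j, h3, key i j h3 h⟩
  · exact ⟨j, i, h3, key j i h3 (h.mono fun n hn => ⟨hn.2, hn.1⟩)⟩

end Pool.Agent.Y863.DH
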