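import Pool.Agent.Y863.DH.Forms

/-!
# Iterates of `x ↦ a + d x`: exact gaps between the primes of an orbit, from `DHL[45,2]`
-/

set_option autoImplicit false

namespace Pool.Agent.Y863.DH

open Finset Filter Pool.Agent.H732R3.BigQ Pool.Agent.H95R2.BG.LF Pool.Agent.H355R2.MT
open Pool.Agent.W25.IT
open Pool.Agent.Y826.ZG (Dhl45L)

/-- `z` is a prime number -/
def IsP (z : ℤ) : Prop := ∃ p : ℕ, p.Prime ∧ z = p

/-- the value of the `t`-th iterate at `n` -/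
theorem iter_eq (a d : ℤ) (t : ℕ) (x : ℤ) : (fun y : ℤ => a + d * y)^[t] x = d ^ t * x + itc a d t := by
  induction t with
  | zero => simp [itc_zero]
  | succ t ih =>
    rw [Function.iterate_succ_apply', ih, itc_succ]
    ring

/-- `q` and the `j`-th iterate are prime, all other iterates up to `j + R` are not -/
def ExactGap (a d : ℤ) (j R : ℕ) : Set ℕ :=
  {q : ℕ | q.Prime ∧ ∀ l : ℕ, 1 ≤ l → l ≤ j + R → (IsP ((fun y : ℤ => a + d * y)^[l] (q : ℤ)) ↔ l = j)}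

theorem itc_ne_zero {a d : ℤ} (hd : 1 ≤ d) (ha : a ≠ 0) {j : ℕ} (hj : 0 < j) : itc a d j ≠ 0 := by
  unfold itc
  refine mul_ne_zero ha (ne_of_gt ?_)
  have : ∀ i ∈ range j, (0 : ℤ) < d ^ i := fun i _ => pow_pos (by omega) i
  exact sum_pos this ⟨0, mem_range.2 hj⟩

/-- if two values of an orbit at different times are divisible by `q`, then `q ∣ itc` -/
theorem dvd_itc {a d : ℤ} {q : ℤ} {i j : ℕ} (hij : i < j) {x : ℤ}
    (hi : q ∣ d ^ i * x + itc a d i) (hj : q ∣ d ^ j * x + itc a d j) : q ∣ itc a d (j - i) := by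
  have h1 := itc_sub a d hij.le
  have h2 : itc a d (j - i) = (d ^ j * x + itc a d j) - d ^ (j - i) * (d ^ i * x + itc a d i) := by
    have h3 : d ^ (j - i) * d ^ i = d ^ j := by rw [← pow_add, Nat.sub_add_cancel hij.le]
    rw [← h1]
    linear_combination x * h3
  rw [h2]
  exact dvd_sub hj (hi.mul_left _)

/-- primes larger than the numbers `itc` -/
theorem big_primes (a d : ℤ) (W : ℕ) : ∃ q : ℕ → ℕ, Function.Injective q ∧
    (∀ t, (q t).Prime) ∧ (∀ t, d < q t) ∧ ∀ t, ∀ l ≤ W, |itc a d l| < q t := by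
  set Y : ℕ := ∑ l ∈ range (W + 1), (itc a d l).natAbs with hY
  refine ⟨fun t => Nat.nth Nat.Prime (Y + d.natAbs + t), ?_, fun t => Nat.prime_nth_prime _, ?_, ?_⟩
  · intro s t hst
    have := Nat.nth_injective Nat.infinite_setOfPred_prime hst
    omega
  · intro t
    have := Nat.add_two_le_nth_prime (Y + d.natAbs + t)
    show d < ((Nat.nth Nat.Prime (Y + d.natAbs + t) : ℕ) : ℤ)
    have h2 : d ≤ (d.natAbs : ℤ) := Int.le_natAbs
    omega
  · intro t l hl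
    have h1 := Nat.add_two_le_nth_prime (Y + d.natAbs + t)
    have h2 : (itc a d l).natAbs ≤ Y :=
      single_le_sum (f := fun l => (itc a d l).natAbs) (fun _ _ => Nat.zero_le _)
        (mem_range.2 (by omega))
    have h3 : |itc a d l| = ((itc a d l).natAbs : ℤ) := (Int.natCast_natAbs _).symm
    rw [h3]
    exact_mod_cast (by omega : (itc a d l).natAbs < Nat.nth Nat.Prime (Y + d.natAbs + t))

/-- a zero of the `t`-th iterate modulo a prime which does not divide `d` -/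
theorem exists_zero (a : ℤ) {d : ℤ} (t : ℕ) {q : ℕ} (hq : q.Prime) (hD : ¬ (q : ℤ) ∣ d) :
    ∃ r : ℕ, (q : ℤ) ∣ d ^ t * (r : ℤ) + itc a d t := by
  have : Fact q.Prime := ⟨hq⟩
  have hD0 : (d : ZMod q) ≠ 0 := by
    rw [Ne, ZMod.intCast_zmod_eq_zero_iff_dvd]; exact hD
  refine ⟨(-(itc a d t : ZMod q) / (d : ZMod q) ^ t).val, ?_⟩
  rw [← ZMod.intCast_zmod_eq_zero_iff_dvd]
  push_cast
  rw [ZMod.natCast_zmod_val]
  field_simp
  ring

/-- the congruence condition: all values at the times `t ≤ W` outside `E` are divisible by a prime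
factor of `Q`, and no value at a time of `E` is divisible by a prime factor of `Q` -/
theorem block (a d : ℤ) (hd : 1 ≤ d) (ha : a ≠ 0) (W : ℕ) (E : Finset ℕ)
    (hE : ∀ t ∈ E, t ≤ W) :
    ∃ Q r : ℕ, 0 < Q ∧ (∀ t ≤ W, t ∉ E → ∃ q : ℕ, q.Prime ∧ q ∣ Q ∧ (q : ℤ) ∣ d ^ t * (r : ℤ) + itc a d t) ∧
      ∀ q : ℕ, q.Prime → q ∣ Q → ∀ t ∈ E, ¬ (q : ℤ) ∣ d ^ t * (r : ℤ) + itc a d t := by
  classical
  obtain ⟨q, hqinj, hqp, hqD, hqB⟩ := big_primes a d W
  have hnd : ∀ t, ¬ (q t : ℤ) ∣ d := fun t h => by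
    have h1 := Int.le_of_dvd (by omega) h
    have h2 := hqD t
    omega
  have hz : ∀ t, ∃ r : ℕ, (q t : ℤ) ∣ d ^ t * (r : ℤ) + itc a d t := fun t => exists_zero a t (hqp t) (hnd t)
  choose z hz using hz
  set U : Finset ℕ := (range (W + 1)).filter fun t => t ∉ E with hU
  have hpair : Set.Pairwise (U : Set ℕ) (Function.onFun Nat.Coprime q) := by
    intro s _ t _ hst
    exact (Nat.coprime_primes (hqp s) (hqp t)).2 fun h => hst (hqinj h)
  obtain ⟨r, hr⟩ := Nat.chineseRemainderOfFinset z q U (fun t _ => (hqp t).ne_zero) hpair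
  have hrd : ∀ t ∈ U, (q t : ℤ) ∣ d ^ t * (r : ℤ) + itc a d t := by
    intro t ht
    have h1 : ((r : ℕ) : ℤ) ≡ (z t : ℤ) [ZMOD q t] := (Int.natCast_modEq_iff).2 (hr t ht)
    have h2 : d ^ t * (r : ℤ) + itc a d t ≡ d ^ t * (z t : ℤ) + itc a d t [ZMOD q t] :=
      (h1.mul_left _).add_right _
    exact h2.dvd_iff.2 (hz t)
  refine ⟨∏ t ∈ U, q t, r, prod_pos fun t _ => (hqp t).pos, ?_, ?_⟩
  · intro t ht hne
    have htU : t ∈ U := by rw [hU, mem_filter, mem_range]; exact ⟨by omega, hne⟩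
    exact ⟨q t, hqp t, dvd_prod_of_mem q htU, hrd t htU⟩
  · intro p hp hpQ s hs hdd
    obtain ⟨t, htU, hpt⟩ := (hp.prime.dvd_finsetProd_iff _).1 hpQ
    have hpq : p = q t := (Nat.prime_dvd_prime_iff_eq hp (hqp t)).1 hpt
    subst hpq
    have htE : t ∉ E := (mem_filter.1 htU).2
    have htW : t ≤ W := by
      have := (mem_filter.1 htU).1
      rw [mem_range] at this; omega
    have hsW := hE s hs
    have h1 := hrd t htU
    have key : ∀ l : ℕ, 0 < l → l ≤ W → ¬ ((q t : ℕ) : ℤ) ∣ itc a d l := by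
      intro l hl0 hlW hll
      have h2 := Int.eq_zero_of_abs_lt_dvd hll (hqB t l hlW)
      exact itc_ne_zero hd ha hl0 h2
    rcases lt_trichotomy s t with h | h | h
    · exact key (t - s) (by omega) (by omega) (dvd_itc h hdd h1)
    · exact htE (h ▸ hs)
    · exact key (s - t) (by omega) (by omega) (dvd_itc h h1 hdd)

/-- a value divisible by a prime factor of `Q` is not prime if the starting point is large -/
theorem not_P {a d : ℤ} (hd : 1 ≤ d) {W Q r n t : ℕ} (hQ : 0 < Q) (ht : t ≤ W)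
    (hn : ∀ l ≤ W, (Q : ℤ) + |itc a d l| < n) {q : ℕ} (hq : q.Prime) (hqQ : q ∣ Q)
    (hdv : (q : ℤ) ∣ d ^ t * (r : ℤ) + itc a d t) :
    ¬ IsP (d ^ t * ((Q * n + r : ℕ) : ℤ) + itc a d t) := by
  rintro ⟨p, hp, hpe⟩
  have h1 : (q : ℤ) ∣ (p : ℤ) := by
    have e1 : d ^ t * ((Q * n + r : ℕ) : ℤ) + itc a d t =
        (d ^ t * (r : ℤ) + itc a d t) + Q * (d ^ t * n) := by
      push_cast; ring
    rw [← hpe, e1]
    exact dvd_add hdv ((Int.natCast_dvd_natCast.2 hqQ).mul_right _)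
  have h2 : q = p := (Nat.prime_dvd_prime_iff_eq hq hp).1 (Int.natCast_dvd_natCast.1 h1)
  have h5 : (q : ℤ) ≤ Q := by exact_mod_cast Nat.le_of_dvd hQ hqQ
  rw [← h2] at hpe
  have h6 := hn t ht
  have h6' := neg_abs_le (itc a d t)
  have h7 : (1 : ℤ) ≤ d ^ t := one_le_pow₀ hd
  have h8 : (n : ℤ) ≤ ((Q * n + r : ℕ) : ℤ) := by
    have : n ≤ Q * n + r := by nlinarith
    exact_mod_cast this
  have h9 : (0 : ℤ) ≤ ((Q * n + r : ℕ) : ℤ) := Nat.cast_nonneg _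
  have h10 : ((Q * n + r : ℕ) : ℤ) ≤ d ^ t * ((Q * n + r : ℕ) : ℤ) :=
    le_mul_of_one_le_left h9 h7
  linarith

theorem big_large {F : Set ℕ} (hF : Big F) (N : ℕ) : Big {n | n ∈ F ∧ N < n} := by
  obtain ⟨i, hi⟩ := Pool.Agent.W59.GB.big_cover
    (fun i : Bool => if i then {n | n ∈ F ∧ N < n} else {n | n ≤ N}) F hF (by
      intro n hn
      rcases Nat.lt_or_ge N n with h | h
      · exact Set.mem_iUnion.2 ⟨true, by simp [hn, h]⟩
      · exact Set.mem_iUnion.2 ⟨false, by simp [h]⟩)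
  cases i with
  | true => simpa using hi
  | false =>
    exfalso
    have h1 : Big {n : ℕ | n ≤ N} := by simpa using hi
    exact h1.infinite (Set.finite_Iic N)

/-- the key: for one `R` -/
theorem gap_R (H : Dhl45L) (a d : ℤ) (hd : 1 ≤ d) (hg : Int.gcd a d = 1) (h2 : 2 ∣ a * d) (ha : a ≠ 0)
    (E : Finset ℕ) (hE : 45 ≤ E.card)
    (hcls : ∀ p : ℕ, p.Prime → 3 ≤ p → p ≤ 43 → (p : ℤ) ∣ d - 1 → ¬ (p : ℤ) ∣ a →
      ∃ r : ℕ, ∀ e ∈ E, ¬ e ≡ r [MOD p]) (R : ℕ) :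
    ∃ e ∈ E, ∃ e' ∈ E, e < e' ∧ Big (ExactGap a d (e' - e) R) := by
  classical
  obtain ⟨S, hSE, hS⟩ := exists_subset_card_eq hE
  obtain ⟨W, hW⟩ : ∃ W, ∀ t ∈ S, t + R ≤ W := ⟨S.sup id + R, fun t ht => by
    have := le_sup (f := id) ht
    simp only [id] at this
    omega⟩
  obtain ⟨Q, r, hQ0, hb1, hb2⟩ := block a d hd ha W S (fun t ht => by have := hW t ht; omega)
  have hQpos : (0 : ℤ) < Q := by exact_mod_cast hQ0
  have hdpos : ∀ t : ℕ, (0 : ℤ) < d ^ t := fun t => pow_pos (by omega) t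
  have hB := forms45_finset H S hS (fun t => d ^ t * Q) (fun t => d ^ t * r + itc a d t)
    (fun t _ => by
      have := mul_pos (hdpos t) hQpos
      show (1 : ℤ) ≤ d ^ t * Q
      omega)
    (fun t ht => by
      by_contra hne
      obtain ⟨p, hp, hpd⟩ := Nat.exists_prime_and_dvd hne
      have h1 : (p : ℤ) ∣ (Int.gcd (d ^ t * r + itc a d t) (d ^ t * Q) : ℤ) := Int.natCast_dvd_natCast.2 hpd
      have h3 := h1.trans (Int.gcd_dvd_left _ _)
      rcases (Nat.prime_iff_prime_int.1 hp).dvd_or_dvd (h1.trans (Int.gcd_dvd_right _ _)) with h4 | h4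
      · exact itc_coprime hg hp h4 ((dvd_add_right (h4.mul_right _)).1 h3)
      · exact hb2 p hp (Int.natCast_dvd_natCast.1 h4) t ht h3)
    (by
      intro s _ t _ h1 h3
      have h4 := mul_right_cancel₀ hQpos.ne' h1
      rw [h4] at h3
      exact itc_inj hd ha h4 (add_left_cancel h3))
    (by
      intro p hp hp43
      by_cases hpQ : p ∣ Q
      · refine ⟨0, fun t ht hdv => hb2 p hp hpQ t ht ?_⟩
        simpa using hdv
      · obtain ⟨n, hn⟩ := iter_admissible hg h2 (fun i : S => (i : ℕ)) hp (by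
          intro hp3 hp1 hpa
          obtain ⟨c, hc⟩ := hcls p hp hp3 hp43 hp1 hpa
          exact iter_miss (fun i : S => (i : ℕ)) hp hp1 hpa c (fun i => hc i (hSE i.2)))
        have hcop : IsCoprime (Q : ℤ) (p : ℤ) :=
          Nat.isCoprime_iff_coprime.2 ((Nat.Prime.coprime_iff_not_dvd hp).2 hpQ).symm
        obtain ⟨u, v, huv⟩ := hcop
        refine ⟨u * (n - r), fun t ht hdv => hn ⟨t, ht⟩ ?_⟩
        have e1 : d ^ t * (Q : ℤ) * (u * (n - r)) + (d ^ t * r + itc a d t) =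
            (d ^ t * n + itc a d t) - p * (d ^ t * v * (n - r)) := by
          linear_combination (d ^ t * (n - r)) * huv
        rw [e1] at hdv
        exact (dvd_sub_left (Dvd.intro _ rfl)).1 hdv)
  -- the last two hits
  have hval : ∀ (t n : ℕ), d ^ t * (Q : ℤ) * n + (d ^ t * r + itc a d t) =
      d ^ t * ((Q * n + r : ℕ) : ℤ) + itc a d t := by
    intro t n; push_cast; ring
  obtain ⟨N, hN⟩ : ∃ N : ℕ, ∀ l ≤ W, (Q : ℤ) + |itc a d l| < N := by
    refine ⟨Q + ∑ l ∈ range (W + 1), (itc a d l).natAbs + 1, fun l hl => ?_⟩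
    have h2 : (itc a d l).natAbs ≤ ∑ l ∈ range (W + 1), (itc a d l).natAbs :=
      single_le_sum (f := fun l => (itc a d l).natAbs) (fun _ _ => Nat.zero_le _)
        (mem_range.2 (by omega))
    have h3 : |itc a d l| = ((itc a d l).natAbs : ℤ) := (Int.natCast_natAbs _).symm
    rw [h3]
    exact_mod_cast (by omega : Q + (itc a d l).natAbs < Q + ∑ l ∈ range (W + 1), (itc a d l).natAbs + 1)
  have hB2 := big_large hB N
  obtain ⟨⟨i, j⟩, hij⟩ := Pool.Agent.W59.GB.big_cover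
    (fun x : S × S => {n : ℕ | N < n ∧ (x.1 : ℕ) < x.2 ∧ IsP (d ^ (x.1 : ℕ) * ((Q * n + r : ℕ) : ℤ) + itc a d x.1) ∧
      IsP (d ^ (x.2 : ℕ) * ((Q * n + r : ℕ) : ℤ) + itc a d x.2) ∧
      ∀ t ∈ S, (x.1 : ℕ) < t → t ≠ x.2 → ¬ IsP (d ^ t * ((Q * n + r : ℕ) : ℤ) + itc a d t)}) _ hB2 (by
      rintro n ⟨⟨i, hi, j, hj, hne, h1, h3⟩, hnN⟩
      -- the set of hits
      set T : Finset ℕ := S.filter (fun t => IsP (d ^ t * ((Q * n + r : ℕ) : ℤ) + itc a d t)) with hT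
      have hiT : i ∈ T := by
        rw [hT, mem_filter]; refine ⟨hi, ?_⟩; rw [← hval]; exact h1
      have hjT : j ∈ T := by
        rw [hT, mem_filter]; refine ⟨hj, ?_⟩; rw [← hval]; exact h3
      have hTne : T.Nonempty := ⟨i, hiT⟩
      set m := T.max' hTne with hm
      have hmT : m ∈ T := T.max'_mem hTne
      have hT2 : (T.erase m).Nonempty := by
        by_cases him : i = m
        · exact ⟨j, mem_erase.2 ⟨fun h => hne (by rw [him, h]), hjT⟩⟩
        · exact ⟨i, mem_erase.2 ⟨him, hiT⟩⟩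
      set k := (T.erase m).max' hT2 with hk
      have hkT : k ∈ T.erase m := (T.erase m).max'_mem hT2
      have hkT' : k ∈ T := mem_of_mem_erase hkT
      have hkm : k < m := lt_of_le_of_ne (T.le_max' k hkT') (ne_of_mem_erase hkT)
      refine Set.mem_iUnion.2 ⟨(⟨k, (mem_filter.1 hkT').1⟩, ⟨m, (mem_filter.1 hmT).1⟩), hnN, hkm,
        (mem_filter.1 hkT').2, (mem_filter.1 hmT).2, ?_⟩
      intro t ht hkt htm hP
      have htT : t ∈ T := mem_filter.2 ⟨ht, hP⟩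
      have h5 : t ≤ k := (T.erase m).le_max' t (mem_erase.2 ⟨htm, htT⟩)
      exact absurd hkt (not_lt.2 h5))
  obtain ⟨n0, hn0⟩ := hij.infinite.nonempty
  have hlt : (i : ℕ) < j := hn0.2.1
  refine ⟨i, hSE i.2, j, hSE j.2, hlt, ?_⟩
  have hD0 : 0 < (d ^ (i : ℕ) * (Q : ℤ)) := mul_pos (hdpos _) hQpos
  have hDn : (((d ^ (i : ℕ) * (Q : ℤ)).toNat : ℕ) : ℤ) = d ^ (i : ℕ) * (Q : ℤ) := Int.toNat_of_nonneg hD0.le
  refine Big.affine hij (d ^ (i : ℕ) * (Q : ℤ)).toNat (d ^ (i : ℕ) * r + itc a d i) (by omega)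
    (fun n => (d ^ (i : ℕ) * ((Q * n + r : ℕ) : ℤ) + itc a d i).toNat) ?_ ?_
  · rintro n ⟨-, -, ⟨p, -, hp⟩, -⟩
    rw [hDn, hval]
    exact Int.toNat_of_nonneg (by rw [hp]; positivity)
  · rintro n ⟨hnN, -, ⟨p, hpp, hp⟩, ⟨p', hpp', hp'⟩, hno⟩
    simp only at hp hp' hno
    have h1 : (d ^ (i : ℕ) * ((Q * n + r : ℕ) : ℤ) + itc a d i).toNat = p := by rw [hp]; simp
    show (d ^ (i : ℕ) * ((Q * n + r : ℕ) : ℤ) + itc a d i).toNat ∈ _
    rw [h1]
    refine ⟨hpp, fun l hl1 hl2 => ?_⟩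
    have hv : (fun y : ℤ => a + d * y)^[l] (p : ℤ) = d ^ ((i : ℕ) + l) * ((Q * n + r : ℕ) : ℤ) + itc a d (i + l) := by
      rw [iter_eq, ← hp, add_comm (i : ℕ) l, itc_add a d l i, pow_add]
      ring
    rw [hv]
    have hNn : ∀ l ≤ W, (Q : ℤ) + |itc a d l| < n := fun l hl => (hN l hl).trans (by exact_mod_cast hnN)
    constructor
    · intro hP
      by_contra hne
      have hiW := hW j j.2
      have hle : (i : ℕ) + l ≤ W := by omega
      by_cases hm : (i : ℕ) + l ∈ S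
      · exact hno _ hm (by omega) (by omega) hP
      · obtain ⟨q, hq, hqQ, hqd⟩ := hb1 _ hle hm
        exact not_P hd hQ0 hle hNn hq hqQ hqd hP
    · intro h5
      have h6 : (i : ℕ) + l = j := by omega
      rw [h6]
      exact ⟨p', hpp', hp'⟩

theorem exactGap_anti (a d : ℤ) (j : ℕ) {R R' : ℕ} (h : R ≤ R') : ExactGap a d j R' ⊆ ExactGap a d j R :=
  fun _ hq => ⟨hq.1, fun l h1 h2 => hq.2 l h1 (by omega)⟩

/-- **exact gaps**: all `R` at once -/
theorem gap_all (H : Dhl45L) (a d : ℤ) (hd : 1 ≤ d) (hg : Int.gcd a d = 1) (h2 : 2 ∣ a * d) (ha : a ≠ 0)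
    (E : Finset ℕ) (hE : 45 ≤ E.card)
    (hcls : ∀ p : ℕ, p.Prime → 3 ≤ p → p ≤ 43 → (p : ℤ) ∣ d - 1 → ¬ (p : ℤ) ∣ a →
      ∃ r : ℕ, ∀ e ∈ E, ¬ e ≡ r [MOD p]) :
    ∃ e ∈ E, ∃ e' ∈ E, e < e' ∧ ∀ R : ℕ, Big (ExactGap a d (e' - e) R) := by
  classical
  by_contra hcon
  push Not at hcon
  have h1 : ∀ x : E × E, ∃ R : ℕ, (x.1 : ℕ) < x.2 → ¬ Big (ExactGap a d (x.2 - x.1) R) := by
    intro x
    by_cases hx : (x.1 : ℕ) < x.2
    · obtain ⟨R, hR⟩ := hcon x.1 x.1.2 x.2 x.2.2 hx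
      exact ⟨R, fun _ => hR⟩
    · exact ⟨0, fun h => absurd h hx⟩
  choose Rf hRf using h1
  obtain ⟨e, he, e', he', hlt, hB⟩ := gap_R H a d hd hg h2 ha E hE hcls (univ.sup Rf)
  refine hRf (⟨e, he⟩, ⟨e', he'⟩) hlt (hB.mono ?_)
  exact exactGap_anti a d _ (le_sup (f := Rf) (mem_univ (⟨⟨e, he⟩, ⟨e', he'⟩⟩ : E × E)))

/-- a good gap gives a good pair of the question -/
theorem goodPair_of_gap {a d : ℤ} (hd : 1 ≤ d) {j R : ℕ} (hj : 1 ≤ j) (h : Big (ExactGap a d j R)) :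
    GoodPair (itc a d j) (d ^ j) := by
  refine goodPair_of_big (pow_pos (by omega) j) (h.mono ?_)
  rintro q ⟨hq, hl⟩
  obtain ⟨p, hp, he⟩ := (hl j hj (by omega)).2 rfl
  refine ⟨hq, p, hp, ?_⟩
  rw [← he, iter_eq]
  ring

/-- an explicit set of 45 exponents -/
def E45 : Finset ℕ := {0, 1, 6, 7, 12, 13, 15, 18, 22, 25, 27, 28, 30, 33, 36, 37, 40, 42, 46, 48, 51, 55,
  57, 58, 61, 63, 67, 70, 72, 75, 78, 81, 82, 85, 88, 90, 91, 93, 96, 97, 100, 102, 103, 105, 106}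

set_option maxRecDepth 20000 in
theorem E45_card : E45.card = 45 := by decide

set_option maxRecDepth 20000 in
theorem E45_le : ∀ e ∈ E45, e ≤ 106 := by decide

set_option maxRecDepth 20000 in
theorem E45_cls (p : ℕ) (hp : p.Prime) (h3 : 3 ≤ p) (h43 : p ≤ 43) :
    ∃ r : ℕ, ∀ e ∈ E45, ¬ e ≡ r [MOD p] := by
  have key : ∀ r : ℕ, (∀ e ∈ E45, ¬ e % p = r % p) → ∃ r : ℕ, ∀ e ∈ E45, ¬ e ≡ r [MOD p] :=
    fun r h => ⟨r, h⟩
  interval_cases p
  all_goals first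
    | exact absurd hp (by decide)
    | exact key 2 (by decide)
    | exact key 4 (by decide)
    | exact key 3 (by decide)
    | exact key 10 (by decide)
    | exact key 8 (by decide)
    | exact key 9 (by decide)
    | exact key 16 (by decide)
    | exact key 20 (by decide)
    | exact key 21 (by decide)

theorem iter106 (H : Dhl45L) (a d : ℤ) (hd : 1 ≤ d) (hg : Int.gcd a d = 1) (h2 : 2 ∣ a * d) (ha : a ≠ 0) :
    ∃ j : ℕ, 1 ≤ j ∧ j ≤ 106 ∧ GoodPair (itc a d j) (d ^ j) ∧ ∀ R : ℕ, Big (ExactGap a d j R) := by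
  obtain ⟨e, he, e', he', hlt, h⟩ := gap_all H a d hd hg h2 ha E45 E45_card.ge
    (fun p hp h3 h43 _ _ => E45_cls p hp h3 h43)
  have := E45_le e' he'
  exact ⟨e' - e, by omega, by omega, goodPair_of_gap hd (by omega) (h 0), h⟩

/-- no bad primes: 45 arbitrary exponents -/
theorem iter44 (H : Dhl45L) (a d : ℤ) (hd : 1 ≤ d) (hg : Int.gcd a d = 1) (h2 : 2 ∣ a * d) (ha : a ≠ 0)
    (hbad : ∀ p : ℕ, p.Prime → 3 ≤ p → p ≤ 43 → (p : ℤ) ∣ d - 1 → (p : ℤ) ∣ a)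
    (E : Finset ℕ) (hE : 45 ≤ E.card) :
    ∃ e ∈ E, ∃ e' ∈ E, e < e' ∧ ∀ R : ℕ, Big (ExactGap a d (e' - e) R) :=
  gap_all H a d hd hg h2 ha E hE fun p hp h3 h43 h1 h4 => absurd (hbad p hp h3 h43 h1) h4

/-- only `3` is bad: 67 arbitrary exponents -/
theorem iter66 (H : Dhl45L) (a d : ℤ) (hd : 1 ≤ d) (hg : Int.gcd a d = 1) (h2 : 2 ∣ a * d) (ha : a ≠ 0)
    (hbad : ∀ p : ℕ, p.Prime → 5 ≤ p → p ≤ 43 → (p : ℤ) ∣ d - 1 → (p : ℤ) ∣ a)
    (E : Finset ℕ) (hE : 67 ≤ E.card) :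
    ∃ e ∈ E, ∃ e' ∈ E, e < e' ∧ ∀ R : ℕ, Big (ExactGap a d (e' - e) R) := by
  classical
  -- the least popular class modulo 3
  obtain ⟨c, hc, hcard⟩ : ∃ c < 3, (E.filter (fun e => e % 3 = c)).card * 3 ≤ E.card := by
    have h3 : ∑ c ∈ range 3, (E.filter (fun e => e % 3 = c)).card = E.card := by
      rw [← card_eq_sum_card_fiberwise (f := fun e => e % 3) (t := range 3)]
      intro e _
      exact mem_coe.2 (mem_range.2 (Nat.mod_lt _ (by norm_num)))
    by_contra hcon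
    push Not at hcon
    have h4 := hcon 0 (by norm_num)
    have h5 := hcon 1 (by norm_num)
    have h6 := hcon 2 (by norm_num)
    rw [sum_range_succ, sum_range_succ, sum_range_one] at h3
    omega
  obtain ⟨e, he, e', he', hlt, h⟩ := gap_all H a d hd hg h2 ha (E.filter (fun e => ¬ e % 3 = c)) (by
      have := card_filter_add_card_filter_not (s := E) (fun e => e % 3 = c)
      omega) (by
    intro p hp h3 h43 h1 h4
    have hp3 : p = 3 := by
      by_contra hne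
      have h5 : p ≠ 4 := by rintro rfl; exact absurd hp (by norm_num)
      exact h4 (hbad p hp (by omega) h43 h1)
    subst hp3
    refine ⟨c, fun e he hec => (mem_filter.1 he).2 ?_⟩
    have h6 : e % 3 = c % 3 := hec
    rw [h6, Nat.mod_eq_of_lt hc])
  exact ⟨e, (mem_filter.1 he).1, e', (mem_filter.1 he').1, hlt, h⟩

end Pool.Agent.Y863.DH
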