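import Pool.Agent.Y863.DH.Iter

/-!
# The final forms of the theorems on iterates (relative to `Dhl45L`)
-/

set_option autoImplicit false

namespace Pool.Agent.Y863.DH

open Finset Filter Pool.Agent.H732R3.BigQ
open Pool.Agent.W25.IT
open Pool.Agent.Y826.ZG (Dhl45L)

/-- the natural number version of the exact gaps of `x ↦ a + d x` with `a ≥ 0` -/
def NGap (a d j R : ℕ) : Set ℕ :=
  {q : ℕ | q.Prime ∧ ∀ l : ℕ, 1 ≤ l → l ≤ j + R → (((fun y : ℕ => d * y + a)^[l] q).Prime ↔ l = j)}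

theorem iterN (a d : ℕ) (l q : ℕ) :
    (fun y : ℤ => (a : ℤ) + (d : ℤ) * y)^[l] (q : ℤ) = (((fun y : ℕ => d * y + a)^[l] q : ℕ) : ℤ) := by
  induction l with
  | zero => simp
  | succ l ih =>
    rw [Function.iterate_succ_apply', Function.iterate_succ_apply', ih]
    push_cast
    ring

theorem ngap_eq (a d j R : ℕ) : ExactGap (a : ℤ) (d : ℤ) j R = NGap a d j R := by
  ext q
  simp only [ExactGap, NGap, Set.mem_setOf_eq, iterN, IsP]
  constructor
  · rintro ⟨h1, h2⟩
    refine ⟨h1, fun l h3 h4 => ?_⟩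
    rw [← h2 l h3 h4]
    constructor
    · intro h; exact ⟨_, h, rfl⟩
    · rintro ⟨p, hp, he⟩
      have : (fun y : ℕ => d * y + a)^[l] q = p := by exact_mod_cast he
      rw [this]; exact hp
  · rintro ⟨h1, h2⟩
    refine ⟨h1, fun l h3 h4 => ?_⟩
    rw [← h2 l h3 h4]
    constructor
    · rintro ⟨p, hp, he⟩
      have : (fun y : ℕ => d * y + a)^[l] q = p := by exact_mod_cast he
      rw [this]; exact hp
    · intro h; exact ⟨_, h, rfl⟩

end Pool.Agent.Y863.DH
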